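import Pool.Agent.H94R2.Eh.Lim

/-!
# General lattices
-/

namespace H94R2.Eh

open Filter MeasureTheory Topology Pointwise

variable {n : ℕ}

/-- The centroid of a convex body is an interior point. -/
theorem zero_mem_interior (K : Set (Fin n → ℝ)) (hKc : IsCompact K) (hK : Convex ℝ K)
    (hi : (interior K).Nonempty) (hz : ∫ x in K, x = 0) : (0 : Fin n → ℝ) ∈ interior K := by
  by_contra h0
  obtain ⟨f, hf⟩ := geometric_hahn_banach_open_point hK.interior isOpen_interior h0
  rw [map_zero] at hf
  have hint : Integrable (fun x : Fin n → ℝ => x) (volume.restrict K) :=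
    continuous_id.continuousOn.integrableOn_compact hKc
  have h1 : ∫ x in K, f x = 0 := by
    rw [f.integral_comp_comm hint, hz, map_zero]
  have h2 : ∀ x ∈ K, 0 ≤ -f x := by
    have hcl : K ⊆ closure (interior K) := by
      rw [hK.closure_interior_eq_closure_of_nonempty_interior hi]
      exact subset_closure
    intro x hx
    have : closure (interior K) ⊆ {y | f y ≤ 0} :=
      closure_minimal (fun y hy => (hf y hy).le) (isClosed_le f.continuous continuous_const)
    have := this (hcl hx)
    simp only [Set.mem_setOf_eq] at this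
    linarith
  have hint2 : IntegrableOn (fun x => -f x) K :=
    f.continuous.neg.continuousOn.integrableOn_compact hKc
  have h3 : 0 < ∫ x in K, -f x := by
    rw [setIntegral_pos_iff_support_of_nonneg_ae _ hint2]
    · refine (isOpen_interior.measure_pos volume hi).trans_le (measure_mono fun x hx => ⟨?_, ?_⟩)
      · rw [Function.mem_support]
        have := hf x hx
        linarith
      · exact interior_subset hx
    · rw [Filter.EventuallyLE]
      exact (ae_restrict_iff' hKc.measurableSet).mpr (Eventually.of_forall h2)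
  rw [integral_neg, h1, neg_zero] at h3
  exact lt_irrefl _ h3

/-- **Ehrhart's inequality, half-space version, for general lattices.** -/
theorem lattice_bound (A : Matrix (Fin n) (Fin n) ℝ) (hA : A.det ≠ 0) (K : Set (Fin n → ℝ))
    (hKc : IsCompact K) (hK : Convex ℝ K) (hi : (interior K).Nonempty)
    (hz : ∫ x in K, x = 0) (u : (Fin n → ℝ) →ₗ[ℝ] ℝ)
    (hL : ∀ z : Fin n → ℤ, A.mulVec (fun i => (z i : ℝ)) ∈ interior K → z ≠ 0 →
      0 < u (A.mulVec fun i => (z i : ℝ))) :
    volume.real K ≤ (n + 1 : ℝ) ^ n / n.factorial * |A.det| := by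
  have h0 := zero_mem_interior K hKc hK hi hz
  set L : (Fin n → ℝ) →ₗ[ℝ] (Fin n → ℝ) := Matrix.toLin' A with hLdef
  have hdet : LinearMap.det L = A.det := LinearMap.det_toLin' A
  have hdet0 : LinearMap.det L ≠ 0 := by rw [hdet]; exact hA
  set e : (Fin n → ℝ) ≃ₗ[ℝ] (Fin n → ℝ) := LinearEquiv.ofIsUnitDet
    (f := L) (v := Pi.basisFun ℝ (Fin n)) (v' := Pi.basisFun ℝ (Fin n)) (by
      rw [LinearMap.det_toMatrix]
      exact isUnit_iff_ne_zero.mpr hdet0) with he
  have heL : ∀ x, e x = A.mulVec x := fun x => by
    rw [he, LinearEquiv.ofIsUnitDet_apply, hLdef, Matrix.toLin'_apply]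
  have hcont : Continuous L := L.continuous_of_finiteDimensional
  have hec : Continuous e := e.toLinearMap.continuous_of_finiteDimensional
  have hesc : Continuous e.symm := e.symm.toLinearMap.continuous_of_finiteDimensional
  let eh : (Fin n → ℝ) ≃ₜ (Fin n → ℝ) :=
    { toEquiv := e.toEquiv, continuous_toFun := hec, continuous_invFun := hesc }
  have hLe : ∀ x, L x = e x := fun x => by rw [heL, hLdef, Matrix.toLin'_apply]
  set K' : Set (Fin n → ℝ) := L ⁻¹' K with hK'
  have hK'e : K' = eh ⁻¹' K := by
    ext x
    rw [hK', Set.mem_preimage, Set.mem_preimage, hLe]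
    rfl
  have hK'c : IsCompact K' := by
    rw [hK'e]
    exact eh.isCompact_preimage.mpr hKc
  have hK'v : Convex ℝ K' := hK.linear_preimage L
  have hint : interior K' = L ⁻¹' interior K := by
    rw [hK'e, ← eh.preimage_interior]
    ext x
    rw [Set.mem_preimage, Set.mem_preimage, hLe]
    rfl
  have h0' : (0 : Fin n → ℝ) ∈ interior K' := by
    rw [hint, Set.mem_preimage, map_zero]
    exact h0
  have hmap := Measure.map_linearMap_addHaar_eq_smul_addHaar (volume : Measure (Fin n → ℝ)) hdet0
  have hemb : MeasurableEmbedding L := by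
    have : (L : (Fin n → ℝ) → (Fin n → ℝ)) = eh := by
      funext x; exact hLe x
    rw [this]
    exact eh.measurableEmbedding
  have hz' : ∀ i, ∫ x in K', x i = 0 := by
    intro i
    let F : (Fin n → ℝ) →L[ℝ] ℝ :=
      (ContinuousLinearMap.proj i).comp (LinearMap.toContinuousLinearMap e.symm.toLinearMap)
    have hF : ∀ x, F (L x) = x i := by
      intro x
      rw [hLe]
      simp [F]
    have h1 : ∫ x in K', x i = ∫ x in L ⁻¹' K, F (L x) := by
      refine setIntegral_congr_fun hK'c.measurableSet fun x _ => (hF x).symm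
    rw [h1, ← hemb.setIntegral_map (fun y => F y) K, hmap, Measure.restrict_smul,
      integral_smul_measure]
    have hint : Integrable (fun x : Fin n → ℝ => x) (volume.restrict K) :=
      continuous_id.continuousOn.integrableOn_compact hKc
    rw [F.integral_comp_comm hint, hz, map_zero, smul_zero]
  have hmain := main_bound K' hK'c hK'v h0' hz' (u ∘ₗ L) (by
    intro l hl
    by_cases hl0 : l = 0
    · exact Or.inl hl0
    · right
      rw [hint, Set.mem_preimage, hLdef, Matrix.toLin'_apply] at hl
      rw [LinearMap.comp_apply, hLdef, Matrix.toLin'_apply]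
      exact hL l hl hl0)
  have hvol : volume.real K' = |A.det|⁻¹ * volume.real K := by
    rw [hK', measureReal_def, Measure.addHaar_preimage_linearMap volume hdet0, hdet,
      ENNReal.toReal_mul, ENNReal.toReal_ofReal (abs_nonneg _), abs_inv, measureReal_def]
  rw [hvol] at hmain
  have hpos : 0 < |A.det| := abs_pos.mpr hA
  rw [inv_mul_le_iff₀ hpos] at hmain
  linarith

end H94R2.Eh
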