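import Mathlib

/-!
# Order of vanishing at the point `(1,…,1)` and the Frobenius lemma
-/

namespace H94R2.Eh

open MvPolynomial

variable {n : ℕ}

/-- The field with two elements. -/
abbrev F2 := ZMod 2

/-- The substitution `X_i ↦ X_i + 1`. -/
noncomputable def sh : MvPolynomial (Fin n) F2 →ₐ[F2] MvPolynomial (Fin n) F2 :=
  aeval (fun i => X i + 1)

/-- The substitution `X_i ↦ X_i - 1`. -/
noncomputable def shi : MvPolynomial (Fin n) F2 →ₐ[F2] MvPolynomial (Fin n) F2 :=
  aeval (fun i => X i - 1)

theorem shi_sh (f : MvPolynomial (Fin n) F2) : shi (sh f) = f := by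
  have : (shi.comp sh : MvPolynomial (Fin n) F2 →ₐ[F2] MvPolynomial (Fin n) F2)
      = AlgHom.id F2 _ := by
    ext i : 1
    simp [sh, shi]
  exact DFunLike.congr_fun this f

/-- `f` vanishes to order at least `j` at the point `(1,…,1)`. -/
def Ord (j : ℕ) (f : MvPolynomial (Fin n) F2) : Prop :=
  ∀ α : Fin n →₀ ℕ, α.degree < j → coeff α (sh f) = 0

theorem Ord.zero (f : MvPolynomial (Fin n) F2) : Ord 0 f := fun _ h => absurd h (Nat.not_lt_zero _)

theorem Ord.mul {j l : ℕ} {f g : MvPolynomial (Fin n) F2} (hf : Ord j f) (hg : Ord l g) :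
    Ord (j + l) (f * g) := by
  intro α hα
  rw [map_mul, coeff_mul]
  refine Finset.sum_eq_zero ?_
  rintro ⟨x, y⟩ hxy
  rw [Finset.HasAntidiagonal.mem_antidiagonal] at hxy
  simp only at hxy ⊢
  have hd : x.degree + y.degree = α.degree := by
    rw [← hxy, map_add]
  rcases lt_or_ge x.degree j with h | h
  · rw [hf x h, zero_mul]
  · have : y.degree < l := by omega
    rw [hg y this, mul_zero]

theorem Ord.pow {j : ℕ} {f : MvPolynomial (Fin n) F2} (hf : Ord j f) (a : ℕ) :
    Ord (a * j) (f ^ a) := by
  induction a with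
  | zero => simpa using Ord.zero _
  | succ a ih =>
    rw [pow_succ, Nat.succ_mul]
    exact ih.mul hf

theorem Ord.prod {ι : Type*} (s : Finset ι) (o : ι → ℕ) (h : ι → MvPolynomial (Fin n) F2)
    (hh : ∀ i ∈ s, Ord (o i) (h i)) : Ord (∑ i ∈ s, o i) (∏ i ∈ s, h i) := by
  classical
  induction s using Finset.induction_on with
  | empty => simpa using Ord.zero _
  | insert i s hi ih =>
    rw [Finset.sum_insert hi, Finset.prod_insert hi]
    exact (hh i (Finset.mem_insert_self _ _)).mul
      (ih fun k hk => hh k (Finset.mem_insert_of_mem hk))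

/-- The class of an exponent modulo `q`. -/
def cls (q : ℕ) (m : Fin n →₀ ℕ) : Fin n → ZMod q := fun i => (m i : ZMod q)

/-- The sum of the coefficients over one residue class modulo `q`. -/
noncomputable def Lam (q : ℕ) (c : Fin n → ZMod q) : MvPolynomial (Fin n) F2 →ₗ[F2] F2 :=
  open Classical in
  (basisMonomials (Fin n) F2).constr F2 (fun m => if cls q m = c then 1 else 0)

open Classical in
theorem Lam_monomial (q : ℕ) (c : Fin n → ZMod q) (m : Fin n →₀ ℕ) (a : F2) :
    Lam q c (monomial m a) = if cls q m = c then a else 0 := by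
  have h : (monomial m a : MvPolynomial (Fin n) F2) = a • basisMonomials (Fin n) F2 m := by
    simp [coe_basisMonomials, smul_monomial]
  rw [h, map_smul, Lam, Module.Basis.constr_basis]
  split_ifs <;> simp

open Classical in
theorem Lam_apply (q : ℕ) (c : Fin n → ZMod q) (f : MvPolynomial (Fin n) F2) :
    Lam q c f = ∑ m ∈ f.support, if cls q m = c then coeff m f else 0 := by
  conv_lhs => rw [f.as_sum]
  rw [map_sum]
  exact Finset.sum_congr rfl fun m _ => Lam_monomial q c m _

theorem Lam_X_pow_mul (q : ℕ) (c : Fin n → ZMod q) (i : Fin n) (f : MvPolynomial (Fin n) F2) :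
    Lam q c (X i ^ q * f) = Lam q c f := by
  classical
  induction f using MvPolynomial.induction_on' with
  | monomial m a =>
    have h : (X i ^ q * monomial m a : MvPolynomial (Fin n) F2)
        = monomial (Finsupp.single i q + m) a := by
      rw [X_pow_eq_monomial, monomial_mul, one_mul]
    rw [h, Lam_monomial, Lam_monomial]
    have h2 : cls q (Finsupp.single i q + m) = cls q m := by
      funext k
      simp only [cls, Finsupp.add_apply, Nat.cast_add]
      by_cases hk : i = k
      · subst hk; simp
      · simp [hk]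
    rw [h2]
  | add p q hp hq => rw [mul_add, map_add, map_add, hp, hq]

/-- **Frobenius lemma.** If `f` vanishes to order at least `n (2^e - 1) + 1` at `(1,…,1)`,
the sum of its coefficients over every residue class modulo `2^e` vanishes. -/
theorem frob (e : ℕ) (c : Fin n → ZMod (2 ^ e)) (f : MvPolynomial (Fin n) F2)
    (hf : Ord (n * (2 ^ e - 1) + 1) f) : Lam (2 ^ e) c f = 0 := by
  have key : ∀ α : Fin n →₀ ℕ, n * (2 ^ e - 1) < α.degree → ∀ a : F2,
      Lam (2 ^ e) c (shi (monomial α a)) = 0 := by
    intro α hα a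
    have hex : ∃ i, 2 ^ e ≤ α i := by
      by_contra hcon
      push Not at hcon
      have : α.degree ≤ n * (2 ^ e - 1) := by
        rw [Finsupp.degree_eq_sum]
        calc ∑ i, α i ≤ ∑ _i : Fin n, (2 ^ e - 1) :=
              Finset.sum_le_sum fun i _ => Nat.le_sub_one_of_lt (hcon i)
          _ = n * (2 ^ e - 1) := by simp
      omega
    obtain ⟨i, hi⟩ := hex
    obtain ⟨β, hβ⟩ : ∃ β : Fin n →₀ ℕ, α = Finsupp.single i (2 ^ e) + β := by
      refine ⟨α - Finsupp.single i (2 ^ e), ?_⟩
      rw [add_tsub_cancel_of_le]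
      intro k
      by_cases hk : i = k
      · subst hk; simpa using hi
      · simp [hk]
    have h1 : (monomial α a : MvPolynomial (Fin n) F2) = X i ^ (2 ^ e) * monomial β a := by
      rw [hβ, X_pow_eq_monomial, monomial_mul, one_mul]
    have h2 : shi (X i : MvPolynomial (Fin n) F2) ^ (2 ^ e) = X i ^ (2 ^ e) - 1 := by
      have : shi (X i : MvPolynomial (Fin n) F2) = X i - 1 := by simp [shi]
      rw [this, sub_pow_char_pow, one_pow]
    rw [h1, map_mul, map_pow, h2, sub_mul, one_mul, map_sub, Lam_X_pow_mul, sub_self]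
  have h3 : f = ∑ α ∈ (sh f).support, shi (monomial α (coeff α (sh f))) := by
    conv_lhs => rw [← shi_sh f, (sh f).as_sum, map_sum]
  rw [h3, map_sum]
  refine Finset.sum_eq_zero fun α hα => key α ?_ _
  by_contra hcon
  push Not at hcon
  exact (mem_support_iff.mp hα) (hf α (by omega))

end H94R2.Eh
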