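import Pool.Agent.H94R2.Eh.Lead

/-!
# From the discrete inequality to volumes of convex bodies
-/

namespace H94R2.Eh

open Filter MeasureTheory Topology Pointwise

variable {n : ℕ}

/-- The order on exponents: a real functional first, ties broken lexicographically. -/
noncomputable def ordu (u0 : (Fin n → ℝ) →ₗ[ℝ] ℝ) :
    (Fin n →₀ ℕ) →+ (ℝ ×ₗ (Lex (Fin n → ℤ))) where
  toFun m := toLex (u0 (toR m), toLex (fun i => (m i : ℤ)))
  map_zero' := by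
    rw [toR_zero, map_zero]
    rfl
  map_add' a b := by
    rw [toR_add, map_add]
    have : (fun i => (((a + b : Fin n →₀ ℕ) i : ℕ) : ℤ))
        = (fun i => (a i : ℤ)) + fun i => (b i : ℤ) := by
      funext i; simp
    rw [this]
    rfl

theorem ordu_injective (u0 : (Fin n → ℝ) →ₗ[ℝ] ℝ) : Function.Injective (ordu u0) := by
  intro a b hab
  have h : (fun i => (a i : ℤ)) = fun i => (b i : ℤ) :=
    congrArg (fun x : ℝ ×ₗ (Lex (Fin n → ℤ)) => ofLex (ofLex x).2) hab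
  ext i
  exact_mod_cast congrFun h i

theorem ordu_lt (u0 : (Fin n → ℝ) →ₗ[ℝ] ℝ) {a b : Fin n →₀ ℕ} (h : u0 (toR a) < u0 (toR b)) :
    ordu u0 a < ordu u0 b :=
  Prod.Lex.lt_iff.mpr (Or.inl h)

theorem step1 (K : Set (Fin n → ℝ)) (hK : Convex ℝ K) (h0 : 0 ∈ interior K)
    (u0 : (Fin n → ℝ) →ₗ[ℝ] ℝ)
    (hL : ∀ l : Fin n → ℤ, (fun i => (l i : ℝ)) ∈ interior K →
      l = 0 ∨ 0 < u0 (fun i => (l i : ℝ)))
    (v : Fin n → ℝ) (k : ℕ) (hk : 0 < k) (S : Finset (Fin n →₀ ℕ)) (hne : S.Nonempty)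
    (hS : ∀ m ∈ S, toR m ∈ (k : ℝ) • ((fun x => x + v) '' K))
    (δ : ℝ) (hδ : 0 ≤ δ)
    (hβ : ∀ x ∈ K, x - (S.card : ℝ)⁻¹ • ∑ m ∈ S, ((k : ℝ)⁻¹ • toR m - v) ∈ (1 + δ) • K)
    (a e : ℕ) (hae : a * (S.card * k * (1 + δ)) < (2 : ℝ) ^ e) (J : ℕ) :
    a * (J * S.card) ≤ a * (∑ j ∈ Finset.range J, cnt n (j + 1)) + n * (2 ^ e - 1) := by
  have hK0 : (0 : Fin n → ℝ) ∈ K := interior_subset h0
  have hCc : Convex ℝ ((fun x => x + v) '' K) := by
    rw [← Set.add_singleton]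
    exact hK.add (convex_singleton v)
  refine core (ordu u0) (ordu_injective u0) S ((fun x => x + v) '' K) hCc ⟨_, 0, hK0, rfl⟩ k
    (by positivity) hS a e ?_ J
  intro t hcls ht hle
  set b : Fin n →₀ ℕ := a • ∑ m ∈ S, m with hb
  -- the integral vector `l`
  have hex : ∀ i, ∃ l : ℤ, (t i : ℤ) = b i + 2 ^ e * l := by
    intro i
    have h1 : ((t i : ℕ) : ZMod (2 ^ e)) = ((b i : ℕ) : ZMod (2 ^ e)) := congrFun hcls i
    have h2 : (((t i : ℤ) - (b i : ℤ) : ℤ) : ZMod (2 ^ e)) = 0 := by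
      push_cast
      rw [h1, sub_self]
    rw [ZMod.intCast_zmod_eq_zero_iff_dvd] at h2
    obtain ⟨l, hl⟩ := h2
    refine ⟨l, ?_⟩
    push_cast at hl
    linarith
  choose l hl using hex
  have hlR : toR t = toR b + (2 : ℝ) ^ e • (fun i => (l i : ℝ)) := by
    funext i
    have := congrArg (fun z : ℤ => (z : ℝ)) (hl i)
    simp only [toR, Pi.add_apply, Pi.smul_apply, smul_eq_mul]
    push_cast at this
    exact this
  have hkR : (0 : ℝ) < k := by exact_mod_cast hk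
  have hN : (0 : ℝ) < S.card := by exact_mod_cast hne.card_pos
  have h2e : (0 : ℝ) < 2 ^ e := by positivity
  -- the point `x ∈ K`
  obtain ⟨_, ⟨x, hx, rfl⟩, hxt⟩ := ht
  have hbR : toR b = (S.card * (a * k) : ℝ) • v
      + (S.card * (a * k) : ℝ) • ((S.card : ℝ)⁻¹ • ∑ m ∈ S, ((k : ℝ)⁻¹ • toR m - v)) := by
    funext i
    have e1 : toR b i = a * ∑ m ∈ S, (m i : ℝ) := by
      simp [toR, hb]
    rw [e1]
    simp only [Pi.add_apply, Pi.smul_apply, smul_eq_mul, Finset.sum_apply, Pi.sub_apply, toR]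
    rw [Finset.sum_sub_distrib, Finset.sum_const, nsmul_eq_mul, ← Finset.mul_sum]
    field_simp
    ring
  have hlx : (fun i => (l i : ℝ)) = ((S.card * (a * k) : ℝ) / 2 ^ e) •
      (x - (S.card : ℝ)⁻¹ • ∑ m ∈ S, ((k : ℝ)⁻¹ • toR m - v)) := by
    have h3 : (2 : ℝ) ^ e • (fun i => (l i : ℝ)) = (S.card * (a * k) : ℝ) •
        (x - (S.card : ℝ)⁻¹ • ∑ m ∈ S, ((k : ℝ)⁻¹ • toR m - v)) := by
      have h4 : (2 : ℝ) ^ e • (fun i => (l i : ℝ)) = toR t - toR b := by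
        rw [hlR]; abel
      rw [h4, ← hxt, hbR, smul_sub]
      simp only [smul_add]
      abel
    calc (fun i => (l i : ℝ)) = ((2 : ℝ) ^ e)⁻¹ • ((2 : ℝ) ^ e • (fun i => (l i : ℝ))) := by
          rw [inv_smul_smul₀ h2e.ne']
      _ = _ := by rw [h3, smul_smul, inv_mul_eq_div]
  obtain ⟨y, hy, hyx⟩ := hβ x hx
  simp only at hyx
  have hint : (fun i => (l i : ℝ)) ∈ interior K := by
    rw [hlx, ← hyx, smul_smul]
    set s : ℝ := (S.card * (a * k) : ℝ) / 2 ^ e * (1 + δ) with hs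
    have hs0 : 0 ≤ s := by positivity
    have hs1 : s < 1 := by
      rw [hs, div_mul_eq_mul_div, div_lt_one h2e]
      calc (S.card * (a * k) : ℝ) * (1 + δ) = a * (S.card * k * (1 + δ)) := by ring
        _ < _ := hae
    have := hK.combo_interior_self_mem_interior h0 hy (sub_pos.mpr hs1) hs0 (by ring)
    simpa using this
  rcases hL l hint with h | h
  · ext i
    have := hl i
    rw [h] at this
    simp only [Pi.zero_apply, mul_zero, add_zero] at this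
    exact_mod_cast this
  · exfalso
    refine absurd hle (not_le.mpr (ordu_lt u0 ?_))
    rw [hlR, map_add, map_smul, smul_eq_mul]
    have : 0 < (2 : ℝ) ^ e * u0 (fun i => (l i : ℝ)) := mul_pos h2e h
    linarith

theorem step2 (K : Set (Fin n → ℝ)) (hK : Convex ℝ K) (h0 : 0 ∈ interior K)
    (u0 : (Fin n → ℝ) →ₗ[ℝ] ℝ)
    (hL : ∀ l : Fin n → ℤ, (fun i => (l i : ℝ)) ∈ interior K →
      l = 0 ∨ 0 < u0 (fun i => (l i : ℝ)))
    (v : Fin n → ℝ) (k : ℕ) (hk : 0 < k) (S : Finset (Fin n →₀ ℕ)) (hne : S.Nonempty)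
    (hS : ∀ m ∈ S, toR m ∈ (k : ℝ) • ((fun x => x + v) '' K))
    (δ : ℝ) (hδ : 0 ≤ δ)
    (hβ : ∀ x ∈ K, x - (S.card : ℝ)⁻¹ • ∑ m ∈ S, ((k : ℝ)⁻¹ • toR m - v) ∈ (1 + δ) • K)
    (J : ℕ) :
    (J * S.card : ℝ) ≤ (∑ j ∈ Finset.range J, cnt n (j + 1) : ℕ)
      + n * (S.card * k * (1 + δ)) := by
  set T : ℝ := S.card * k * (1 + δ) with hT
  set Q : ℕ := ∑ j ∈ Finset.range J, cnt n (j + 1) with hQ
  have hkR : (0 : ℝ) < k := by exact_mod_cast hk
  have hN : (0 : ℝ) < S.card := by exact_mod_cast hne.card_pos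
  have hT0 : 0 < T := by positivity
  by_contra hcon
  push Not at hcon
  set X : ℝ := J * S.card - Q with hX
  have hXT : n * T < X := by rw [hX]; linarith
  have hX0 : 0 < X := lt_of_le_of_lt (by positivity) hXT
  -- choose `e` with `2^e` large
  obtain ⟨e, he⟩ := pow_unbounded_of_one_lt (X * T / (X - n * T)) (one_lt_two : (1 : ℝ) < 2)
  have h2e : (0 : ℝ) < 2 ^ e := by positivity
  have hd : 0 < X - n * T := by linarith
  rw [div_lt_iff₀ hd] at he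
  -- `a = ⌈2^e/T⌉ - 1`
  set c : ℕ := ⌈(2 : ℝ) ^ e / T⌉₊ with hc
  have hc1 : (2 : ℝ) ^ e / T ≤ c := Nat.le_ceil _
  have hc0 : 0 < c := Nat.ceil_pos.mpr (by positivity)
  obtain ⟨a, ha⟩ : ∃ a, c = a + 1 := ⟨c - 1, by omega⟩
  have ha1 : (a : ℝ) < 2 ^ e / T := by
    have : a < ⌈(2 : ℝ) ^ e / T⌉₊ := by omega
    exact Nat.lt_ceil.mp this
  have haT : a * T < (2 : ℝ) ^ e := by rwa [lt_div_iff₀ hT0] at ha1
  have hcore := step1 K hK h0 u0 hL v k hk S hne hS δ hδ hβ a e haT J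
  have hcoreR : (a : ℝ) * (J * S.card) ≤ a * Q + n * 2 ^ e := by
    have h1 : ((a * (J * S.card) : ℕ) : ℝ) ≤ ((a * Q + n * (2 ^ e - 1) : ℕ) : ℝ) := by
      exact_mod_cast hcore
    have h2 : ((n * (2 ^ e - 1) : ℕ) : ℝ) ≤ n * 2 ^ e := by
      have : n * (2 ^ e - 1) ≤ n * 2 ^ e := Nat.mul_le_mul_left _ (Nat.sub_le _ _)
      exact_mod_cast this
    push_cast at h1 h2 ⊢
    linarith
  have haX : (a : ℝ) * X ≤ n * 2 ^ e := by
    rw [hX]; linarith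
  have ha2 : (2 : ℝ) ^ e / T - 1 ≤ a := by
    have : (c : ℝ) = a + 1 := by exact_mod_cast ha
    linarith
  have h5 : ((2 : ℝ) ^ e / T - 1) * X ≤ n * 2 ^ e :=
    le_trans (mul_le_mul_of_nonneg_right ha2 hX0.le) haX
  have h6 : ((2 : ℝ) ^ e - T) * X ≤ n * 2 ^ e * T := by
    have : ((2 : ℝ) ^ e / T - 1) * X * T ≤ n * 2 ^ e * T :=
      mul_le_mul_of_nonneg_right h5 hT0.le
    calc ((2 : ℝ) ^ e - T) * X = ((2 : ℝ) ^ e / T - 1) * X * T := by field_simp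
      _ ≤ _ := this
  nlinarith [h6, he]

end H94R2.Eh
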