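import Pool.Agent.H94R2.Eh.Frob

/-!
# Leading monomials of polynomials vanishing to high order at `(1,…,1)`
-/

namespace H94R2.Eh

open MvPolynomial Pointwise

variable {n : ℕ}

/-- The exponent as a real vector. -/
def toR (m : Fin n →₀ ℕ) : Fin n → ℝ := fun i => (m i : ℝ)

theorem toR_add (a b : Fin n →₀ ℕ) : toR (a + b) = toR a + toR b := by
  funext i; simp [toR]

theorem toR_zero : toR (0 : Fin n →₀ ℕ) = 0 := by
  funext i; simp [toR]

section Top

variable {B : Type*} [AddCommGroup B] [LinearOrder B] [IsOrderedAddMonoid B]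

/-- `m` is the leading exponent of `f` with respect to the additive function `u`. -/
def Top (u : (Fin n →₀ ℕ) →+ B) (f : MvPolynomial (Fin n) F2) (m : Fin n →₀ ℕ) : Prop :=
  coeff m f ≠ 0 ∧ ∀ t ∈ f.support, t ≠ m → u t < u m

theorem exists_top (u : (Fin n →₀ ℕ) →+ B) (hu : Function.Injective u)
    {f : MvPolynomial (Fin n) F2} (hf : f ≠ 0) : ∃ m, Top u f m := by
  have hne : f.support.Nonempty := by
    rwa [Finset.nonempty_iff_ne_empty, Ne, MvPolynomial.support_eq_empty]
  obtain ⟨m, hm, hmax⟩ := Finset.exists_max_image f.support u hne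
  exact ⟨m, mem_support_iff.mp hm, fun t ht htm => lt_of_le_of_ne (hmax t ht) fun h => htm (hu h)⟩

theorem Top.le {u : (Fin n →₀ ℕ) →+ B} {f : MvPolynomial (Fin n) F2} {m : Fin n →₀ ℕ}
    (h : Top u f m) {t : Fin n →₀ ℕ} (ht : t ∈ f.support) : u t ≤ u m := by
  by_cases htm : t = m
  · rw [htm]
  · exact (h.2 t ht htm).le

theorem Top.one (u : (Fin n →₀ ℕ) →+ B) : Top u (1 : MvPolynomial (Fin n) F2) 0 := by
  refine ⟨by simp, fun t ht htm => absurd ?_ htm⟩
  by_contra hcon
  rw [mem_support_iff, coeff_one, if_neg (fun h => hcon h.symm)] at ht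
  exact ht rfl

theorem Top.mul {u : (Fin n →₀ ℕ) →+ B} {f g : MvPolynomial (Fin n) F2} {a b : Fin n →₀ ℕ}
    (hf : Top u f a) (hg : Top u g b) : Top u (f * g) (a + b) := by
  classical
  constructor
  · rw [coeff_mul, Finset.sum_eq_single (a, b)]
    · exact mul_ne_zero hf.1 hg.1
    · rintro ⟨x, y⟩ hxy hne
      rw [Finset.HasAntidiagonal.mem_antidiagonal] at hxy
      simp only at hxy ⊢
      by_contra hcon
      have hx : x ∈ f.support := mem_support_iff.mpr (left_ne_zero_of_mul hcon)
      have hy : y ∈ g.support := mem_support_iff.mpr (right_ne_zero_of_mul hcon)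
      have hxa : x ≠ a := by
        rintro rfl
        exact hne (by rw [Prod.mk.injEq]; exact ⟨rfl, add_left_cancel hxy⟩)
      have h1 := hf.2 x hx hxa
      have h2 := hg.le hy
      have h3 : u x + u y = u a + u b := by rw [← map_add, ← map_add, hxy]
      exact absurd h3 (add_lt_add_of_lt_of_le h1 h2).ne
    · intro h
      rw [Finset.HasAntidiagonal.mem_antidiagonal] at h
      exact absurd rfl h
  · intro t ht htm
    obtain ⟨x, hx, y, hy, rfl⟩ := Finset.mem_add.mp (support_mul f g ht)
    rw [map_add, map_add]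
    by_cases hxa : x = a
    · have hyb : y ≠ b := fun h => htm (by rw [hxa, h])
      exact add_lt_add_of_le_of_lt (hf.le hx) (hg.2 y hy hyb)
    · exact add_lt_add_of_lt_of_le (hf.2 x hx hxa) (hg.le hy)

theorem Top.pow {u : (Fin n →₀ ℕ) →+ B} {f : MvPolynomial (Fin n) F2} {m : Fin n →₀ ℕ}
    (hf : Top u f m) (a : ℕ) : Top u (f ^ a) (a • m) := by
  induction a with
  | zero => simpa using Top.one u
  | succ a ih =>
    rw [pow_succ, succ_nsmul]
    exact ih.mul hf

theorem Top.prod {u : (Fin n →₀ ℕ) →+ B} {ι : Type*} (s : Finset ι)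
    (m : ι → (Fin n →₀ ℕ)) (h : ι → MvPolynomial (Fin n) F2)
    (hh : ∀ i ∈ s, Top u (h i) (m i)) : Top u (∏ i ∈ s, h i) (∑ i ∈ s, m i) := by
  classical
  induction s using Finset.induction_on with
  | empty => simpa using Top.one u
  | insert i s hi ih =>
    rw [Finset.sum_insert hi, Finset.prod_insert hi]
    exact (hh i (Finset.mem_insert_self _ _)).mul
      (ih fun k hk => hh k (Finset.mem_insert_of_mem hk))

end Top

section InC

/-- The exponents of `f` lie in `r • C`. -/
def InC (C : Set (Fin n → ℝ)) (r : ℝ) (f : MvPolynomial (Fin n) F2) : Prop :=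
  ∀ t ∈ f.support, toR t ∈ r • C

theorem InC.one {C : Set (Fin n → ℝ)} (hC : C.Nonempty) :
    InC C 0 (1 : MvPolynomial (Fin n) F2) := by
  intro t ht
  have h0 : t = 0 := by
    by_contra hcon
    rw [mem_support_iff, coeff_one, if_neg (fun h => hcon h.symm)] at ht
    exact ht rfl
  rw [h0, toR_zero, Set.zero_smul_set hC]
  exact Set.mem_zero.mpr rfl

theorem InC.mul {C : Set (Fin n → ℝ)} (hC : Convex ℝ C) {r s : ℝ} (hr : 0 ≤ r) (hs : 0 ≤ s)
    {f g : MvPolynomial (Fin n) F2} (hf : InC C r f) (hg : InC C s g) :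
    InC C (r + s) (f * g) := by
  classical
  intro t ht
  obtain ⟨x, hx, y, hy, rfl⟩ := Finset.mem_add.mp (support_mul f g ht)
  rw [toR_add, hC.add_smul hr hs]
  exact Set.add_mem_add (hf x hx) (hg y hy)

theorem InC.pow {C : Set (Fin n → ℝ)} (hC : Convex ℝ C) (hne : C.Nonempty) {r : ℝ} (hr : 0 ≤ r)
    {f : MvPolynomial (Fin n) F2} (hf : InC C r f) (a : ℕ) : InC C (a * r) (f ^ a) := by
  induction a with
  | zero => simpa using InC.one hne
  | succ a ih =>
    rw [pow_succ]
    have : ((a + 1 : ℕ) : ℝ) * r = a * r + r := by push_cast; ring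
    rw [this]
    exact InC.mul hC (by positivity) hr ih hf

theorem InC.prod {C : Set (Fin n → ℝ)} (hC : Convex ℝ C) (hne : C.Nonempty) {r : ℝ} (hr : 0 ≤ r)
    {ι : Type*} (s : Finset ι) (h : ι → MvPolynomial (Fin n) F2)
    (hh : ∀ i ∈ s, InC C r (h i)) : InC C (s.card * r) (∏ i ∈ s, h i) := by
  classical
  induction s using Finset.induction_on with
  | empty => simpa using InC.one hne
  | insert i s hi ih =>
    rw [Finset.prod_insert hi, Finset.card_insert_of_notMem hi]
    have : ((s.card + 1 : ℕ) : ℝ) * r = r + s.card * r := by push_cast; ring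
    rw [this]
    exact InC.mul hC hr (by positivity) (hh i (Finset.mem_insert_self _ _))
      (ih fun k hk => hh k (Finset.mem_insert_of_mem hk))

end InC

/-- The number of exponents of degree less than `j` (in closed form). -/
def cnt (n j : ℕ) : ℕ := ∑ i ∈ Finset.range j, n.multichoose i

/-- The exponents of degree less than `j`. -/
noncomputable def low (n j : ℕ) : Finset (Fin n →₀ ℕ) :=
  (Finset.range j).biUnion fun i => (Finset.univ : Finset (Fin n)).finsuppAntidiag i

theorem mem_low {j : ℕ} {α : Fin n →₀ ℕ} : α ∈ low n j ↔ α.degree < j := by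
  simp only [low, Finset.mem_biUnion, Finset.mem_range, Finset.mem_finsuppAntidiag,
    Finset.subset_univ, and_true, Finsupp.degree_eq_sum]
  constructor
  · rintro ⟨a, ha, h⟩
    rw [h]; exact ha
  · intro h
    exact ⟨_, h, rfl⟩

theorem card_low (j : ℕ) : (low n j).card ≤ cnt n j := by
  refine Finset.card_biUnion_le.trans (Finset.sum_le_sum fun i _ => ?_)
  rw [Finset.card_finsuppAntidiag_nat_eq_multichoose]
  simp

/-- The polynomial with prescribed coefficients on `S`. -/
noncomputable def poly (S : Finset (Fin n →₀ ℕ)) :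
    (S → F2) →ₗ[F2] MvPolynomial (Fin n) F2 where
  toFun c := ∑ m : S, monomial m.1 (c m)
  map_add' c d := by
    simp [Finset.sum_add_distrib]
  map_smul' r c := by
    simp [Finset.smul_sum, smul_monomial]

open Classical in
theorem coeff_poly (S : Finset (Fin n →₀ ℕ)) (c : S → F2) (t : Fin n →₀ ℕ) :
    coeff t (poly S c) = if h : t ∈ S then c ⟨t, h⟩ else 0 := by
  show coeff t (∑ m : S, monomial m.1 (c m)) = _
  rw [coeff_sum]
  simp only [coeff_monomial]
  split_ifs with h
  · rw [Finset.sum_eq_single (⟨t, h⟩ : S)]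
    · simp
    · intro b _ hb
      rw [if_neg]
      intro hbt
      exact hb (Subtype.ext hbt)
    · intro h'; exact absurd (Finset.mem_univ _) h'
  · refine Finset.sum_eq_zero fun m _ => ?_
    rw [if_neg]
    intro hm
    exact h (hm ▸ m.2)

/-- The Taylor coefficients of degree less than `j` at `(1,…,1)`. -/
noncomputable def Wm (S : Finset (Fin n →₀ ℕ)) (j : ℕ) : (S → F2) →ₗ[F2] (low n j → F2) :=
  LinearMap.pi fun α : low n j =>
    (MvPolynomial.lcoeff F2 α.1) ∘ₗ sh.toLinearMap ∘ₗ poly S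

/-- Coefficient vectors whose polynomial vanishes to order `≥ j`. -/
noncomputable def W (S : Finset (Fin n →₀ ℕ)) (j : ℕ) : Submodule F2 (S → F2) :=
  LinearMap.ker (Wm S j)

theorem mem_W {S : Finset (Fin n →₀ ℕ)} {j : ℕ} {c : S → F2} :
    c ∈ W S j ↔ Ord j (poly S c) := by
  rw [W, LinearMap.mem_ker]
  constructor
  · intro h α hα
    have := congrFun h ⟨α, mem_low.mpr hα⟩
    simpa [Wm] using this
  · intro h
    funext α
    simpa [Wm] using h α.1 (mem_low.mp α.2)

theorem finrank_W (S : Finset (Fin n →₀ ℕ)) (j : ℕ) :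
    S.card ≤ Module.finrank F2 (W S j) + cnt n j := by
  have h1 := LinearMap.finrank_range_add_finrank_ker (Wm S j)
  have h2 : Module.finrank F2 (S → F2) = S.card := by
    rw [Module.finrank_fintype_fun_eq_card]; simp
  have h3 : Module.finrank F2 (LinearMap.range (Wm S j)) ≤ (low n j).card := by
    refine (Submodule.finrank_le _).trans ?_
    rw [Module.finrank_fintype_fun_eq_card]; simp
  have h4 := card_low (n := n) j
  rw [h2] at h1
  have h5 : Module.finrank F2 (W S j) = Module.finrank F2 (LinearMap.ker (Wm S j)) := rfl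
  rw [h5]
  omega

section Dset

variable {B : Type*} [AddCommGroup B] [LinearOrder B] [IsOrderedAddMonoid B]

open Classical in
/-- Leading exponents of the polynomials on `S` vanishing to order `≥ j`. -/
noncomputable def D (u : (Fin n →₀ ℕ) →+ B) (S : Finset (Fin n →₀ ℕ)) (j : ℕ) :
    Finset (Fin n →₀ ℕ) :=
  S.filter fun m => ∃ c ∈ W S j, Top u (poly S c) m

theorem card_D (u : (Fin n →₀ ℕ) →+ B) (hu : Function.Injective u)
    (S : Finset (Fin n →₀ ℕ)) (j : ℕ) : Module.finrank F2 (W S j) ≤ (D u S j).card := by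
  classical
  let φ : W S j →ₗ[F2] (D u S j → F2) :=
    (LinearMap.pi fun α : D u S j => (MvPolynomial.lcoeff F2 α.1) ∘ₗ poly S) ∘ₗ (W S j).subtype
  have hφ : Function.Injective φ := by
    rw [← LinearMap.ker_eq_bot, Submodule.eq_bot_iff]
    rintro ⟨c, hc⟩ hker
    rw [LinearMap.mem_ker] at hker
    by_contra hne
    have hc0 : c ≠ 0 := fun h => hne (by ext1; simpa using h)
    have hp : poly S c ≠ 0 := by
      intro h0
      apply hc0
      funext m
      have := coeff_poly S c m.1
      rw [h0, dif_pos m.2] at this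
      simpa using this.symm
    obtain ⟨m, hm⟩ := exists_top u hu hp
    have hmS : m ∈ S := by
      by_contra hcon
      have := coeff_poly S c m
      rw [dif_neg hcon] at this
      exact hm.1 this
    have hmD : m ∈ D u S j := by
      rw [D, Finset.mem_filter]
      exact ⟨hmS, c, hc, hm⟩
    have := congrFun hker ⟨m, hmD⟩
    exact hm.1 (by simpa [φ] using this)
  have := LinearMap.finrank_le_finrank_of_injective hφ
  rw [Module.finrank_fintype_fun_eq_card] at this
  simpa using this

theorem exists_family (u : (Fin n →₀ ℕ) →+ B) (hu : Function.Injective u)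
    (S : Finset (Fin n →₀ ℕ)) (J : ℕ) :
    ∃ (o : (Fin n →₀ ℕ) → ℕ) (h : (Fin n →₀ ℕ) → MvPolynomial (Fin n) F2),
      (∀ m ∈ S, Ord (o m) (h m) ∧ Top u (h m) m ∧ ∀ t ∈ (h m).support, t ∈ S) ∧
      J * S.card ≤ ∑ m ∈ S, o m + ∑ j ∈ Finset.range J, cnt n (j + 1) := by
  classical
  have hD0 : ∀ m ∈ S, m ∈ D u S 0 := by
    intro m hm
    rw [D, Finset.mem_filter]
    refine ⟨hm, Pi.single ⟨m, hm⟩ 1, mem_W.mpr (Ord.zero _), ?_⟩
    constructor
    · rw [coeff_poly, dif_pos hm]
      simp
    · intro t ht htm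
      exfalso
      rw [mem_support_iff, coeff_poly] at ht
      split_ifs at ht with h
      · apply ht
        rw [Pi.single_apply, if_neg]
        intro h2
        exact htm (congrArg Subtype.val h2)
      · exact ht rfl
  let o : (Fin n →₀ ℕ) → ℕ := fun m => Nat.findGreatest (fun j => m ∈ D u S j) J
  have ho : ∀ m ∈ S, m ∈ D u S (o m) := fun m hm =>
    Nat.findGreatest_spec (P := fun j => m ∈ D u S j) (Nat.zero_le J) (hD0 m hm)
  have hex : ∀ m, ∃ h : MvPolynomial (Fin n) F2, m ∈ S →
      (Ord (o m) h ∧ Top u h m ∧ ∀ t ∈ h.support, t ∈ S) := by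
    intro m
    by_cases hm : m ∈ S
    · obtain ⟨-, c, hc, hT⟩ := Finset.mem_filter.mp (ho m hm)
      refine ⟨poly S c, fun _ => ⟨mem_W.mp hc, hT, fun t ht => ?_⟩⟩
      by_contra hcon
      rw [mem_support_iff, coeff_poly, dif_neg hcon] at ht
      exact ht rfl
    · exact ⟨0, fun h => absurd h hm⟩
  choose h hh using hex
  refine ⟨o, h, fun m hm => hh m hm, ?_⟩
  have h1 : ∀ m ∈ S, ((Finset.range J).filter fun j => m ∈ D u S (j + 1)).card ≤ o m := by
    intro m _
    have : ((Finset.range J).filter fun j => m ∈ D u S (j + 1)) ⊆ Finset.range (o m) := by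
      intro j hj
      rw [Finset.mem_filter, Finset.mem_range] at hj
      rw [Finset.mem_range]
      exact Nat.lt_of_succ_le (Nat.le_findGreatest (P := fun j => m ∈ D u S j)
        (Nat.succ_le_of_lt hj.1) hj.2)
    simpa using Finset.card_le_card this
  have h2 : ∑ j ∈ Finset.range J, (D u S (j + 1)).card
      = ∑ m ∈ S, ((Finset.range J).filter fun j => m ∈ D u S (j + 1)).card := by
    have e1 : ∀ j, (D u S (j + 1)).card = ∑ m ∈ S, if m ∈ D u S (j + 1) then 1 else 0 := by
      intro j
      rw [← Finset.sum_filter, Finset.sum_const, smul_eq_mul, mul_one]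
      congr 1
      ext m
      rw [Finset.mem_filter]
      exact ⟨fun hm => ⟨(Finset.mem_filter.mp hm).1, hm⟩, fun hm => hm.2⟩
    have e2 : ∀ m, ((Finset.range J).filter fun j => m ∈ D u S (j + 1)).card
        = ∑ j ∈ Finset.range J, if m ∈ D u S (j + 1) then 1 else 0 := by
      intro m
      rw [← Finset.sum_filter, Finset.sum_const, smul_eq_mul, mul_one]
    simp_rw [e1, e2]
    exact Finset.sum_comm
  have h3 : ∑ _j ∈ Finset.range J, S.card
      ≤ ∑ j ∈ Finset.range J, ((D u S (j + 1)).card + cnt n (j + 1)) := by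
    refine Finset.sum_le_sum fun j _ => ?_
    have := finrank_W S (j + 1)
    have := card_D u hu S (j + 1)
    omega
  rw [Finset.sum_const, Finset.card_range, smul_eq_mul, Finset.sum_add_distrib, h2] at h3
  exact h3.trans (Nat.add_le_add_right (Finset.sum_le_sum h1) _)

/-- **Discrete core inequality.** -/
theorem core (u : (Fin n →₀ ℕ) →+ B) (hu : Function.Injective u)
    (S : Finset (Fin n →₀ ℕ)) (C : Set (Fin n → ℝ)) (hC : Convex ℝ C) (hne : C.Nonempty)
    (k : ℝ) (hk : 0 ≤ k) (hS : ∀ m ∈ S, toR m ∈ k • C) (a e : ℕ)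
    (hab : ∀ t : Fin n →₀ ℕ, cls (2 ^ e) t = cls (2 ^ e) (a • ∑ m ∈ S, m) →
      toR t ∈ (S.card * (a * k)) • C → u t ≤ u (a • ∑ m ∈ S, m) → t = a • ∑ m ∈ S, m)
    (J : ℕ) :
    a * (J * S.card) ≤ a * (∑ j ∈ Finset.range J, cnt n (j + 1)) + n * (2 ^ e - 1) := by
  classical
  obtain ⟨o, h, hh, hsum⟩ := exists_family u hu S J
  set f : MvPolynomial (Fin n) F2 := ∏ m ∈ S, h m ^ a with hf
  have hOrd : Ord (∑ m ∈ S, a * o m) f :=
    Ord.prod S (fun m => a * o m) (fun m => h m ^ a) fun m hm => (hh m hm).1.pow a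
  have hTop : Top u f (a • ∑ m ∈ S, m) := by
    rw [Finset.smul_sum]
    exact Top.prod S (fun m => a • m) (fun m => h m ^ a) fun m hm => (hh m hm).2.1.pow a
  have hIn : InC C (S.card * (a * k)) f :=
    InC.prod hC hne (by positivity) S (fun m => h m ^ a) fun m hm =>
      InC.pow hC hne hk (fun t ht => hS t ((hh m hm).2.2 t ht)) a
  have hle : a * ∑ m ∈ S, o m ≤ n * (2 ^ e - 1) := by
    by_contra hcon
    push Not at hcon
    have hOrd' : Ord (n * (2 ^ e - 1) + 1) f := by
      intro α hα
      refine hOrd α (lt_of_lt_of_le hα ?_)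
      rw [← Finset.mul_sum]
      omega
    have hz := frob e (cls (2 ^ e) (a • ∑ m ∈ S, m)) f hOrd'
    rw [Lam_apply, Finset.sum_eq_single (a • ∑ m ∈ S, m)] at hz
    · rw [if_pos rfl] at hz
      exact hTop.1 hz
    · intro t ht htb
      rw [if_neg]
      intro hc
      exact htb (hab t hc (hIn t ht) (hTop.le ht))
    · intro h'
      exact absurd (mem_support_iff.mpr hTop.1) h'
  calc a * (J * S.card) ≤ a * (∑ m ∈ S, o m + ∑ j ∈ Finset.range J, cnt n (j + 1)) :=
        Nat.mul_le_mul_left _ hsum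
    _ = a * ∑ m ∈ S, o m + a * ∑ j ∈ Finset.range J, cnt n (j + 1) := by ring
    _ ≤ _ := by omega

end Dset

end H94R2.Eh
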