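import Pool.Agent.H94R2.Eh.Geo

/-!
# Lattice points in dilates and the volume bound
-/

namespace H94R2.Eh

open Filter MeasureTheory Topology Pointwise

variable {n : ℕ}

theorem sum_cnt (n J : ℕ) :
    ((∑ j ∈ Finset.range J, cnt n (j + 1) : ℕ) : ℝ) ≤ (n + J : ℝ) ^ (n + 1) / (n + 1).factorial := by
  rcases Nat.eq_zero_or_pos J with rfl | hJ
  · simp only [Finset.range_zero, Finset.sum_empty, Nat.cast_zero]
    positivity
  have h1 : ∀ j, cnt n (j + 1) = (n + 1).multichoose j := by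
    intro j
    rw [cnt, Nat.sum_range_multichoose, Nat.multichoose_eq]
    have : n + 1 + j - 1 = j + n := by omega
    rw [this, Nat.choose_symm_add]
  obtain ⟨J', rfl⟩ : ∃ J', J = J' + 1 := ⟨J - 1, by omega⟩
  have h2 : ∑ j ∈ Finset.range (J' + 1), cnt n (j + 1) = (J' + (n + 1)).choose (n + 1) := by
    rw [Finset.sum_congr rfl fun j _ => h1 j, Nat.sum_range_multichoose]
  rw [h2]
  have h3 := Nat.choose_le_pow_div (α := ℝ) (n + 1) (J' + (n + 1))
  refine h3.trans (le_of_eq ?_)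
  push_cast
  ring

/-- The map from exponents to the rescaled body. -/
noncomputable def g (v : Fin n → ℝ) (k : ℕ) (m : Fin n →₀ ℕ) : Fin n → ℝ :=
  (k : ℝ)⁻¹ • toR m - v

theorem g_injective (v : Fin n → ℝ) (k : ℕ) (hk : 0 < k) : Function.Injective (g v k) := by
  intro a b hab
  have hkR : (k : ℝ) ≠ 0 := by exact_mod_cast hk.ne'
  ext i
  have := congrFun hab i
  simp only [g, Pi.sub_apply, Pi.smul_apply, smul_eq_mul, toR, sub_left_inj] at this
  have := mul_left_cancel₀ (inv_ne_zero hkR) this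
  exact_mod_cast this

theorem finite_exp (K : Set (Fin n → ℝ)) (R : ℕ) (hR : ∀ x ∈ K, ∀ i, |x i| ≤ R) (k : ℕ) :
    {m : Fin n →₀ ℕ | g (fun _ => (R : ℝ)) k m ∈ K}.Finite ∨ k = 0 := by
  rcases Nat.eq_zero_or_pos k with rfl | hk
  · right; rfl
  left
  have hkR : (0 : ℝ) < k := by exact_mod_cast hk
  refine (Set.finite_Iic (Finsupp.equivFunOnFinite.symm fun _ : Fin n => k * (2 * R))).subset ?_
  intro m hm i
  have h1 := hR _ hm i
  simp only [g, Pi.sub_apply, Pi.smul_apply, smul_eq_mul, toR] at h1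
  have h2 := (abs_le.mp h1).2
  have h3 : (k : ℝ)⁻¹ * m i ≤ 2 * R := by linarith
  have h4 : (m i : ℝ) ≤ k * (2 * R) := by
    rwa [inv_mul_le_iff₀ hkR] at h3
  simp only [Finsupp.equivFunOnFinite_symm_apply_apply]
  exact_mod_cast h4

open Classical in
/-- The exponents corresponding to the lattice points of `k K`. -/
noncomputable def Sk (K : Set (Fin n → ℝ)) (R : ℕ) (k : ℕ) : Finset (Fin n →₀ ℕ) :=
  if h : {m : Fin n →₀ ℕ | g (fun _ => (R : ℝ)) k m ∈ K}.Finite then h.toFinset else ∅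

theorem mem_Sk {K : Set (Fin n → ℝ)} {R : ℕ} (hR : ∀ x ∈ K, ∀ i, |x i| ≤ R) {k : ℕ} (hk : 0 < k)
    {m : Fin n →₀ ℕ} : m ∈ Sk K R k ↔ g (fun _ => (R : ℝ)) k m ∈ K := by
  have h := (finite_exp K R hR k).resolve_right hk.ne'
  rw [Sk, dif_pos h]
  simp

theorem image_Sk {K : Set (Fin n → ℝ)} {R : ℕ} (hR : ∀ x ∈ K, ∀ i, |x i| ≤ R) {k : ℕ}
    (hk : 0 < k) :
    K ∩ (k : ℝ)⁻¹ • (Submodule.span ℤ (Set.range ⇑(Pi.basisFun ℝ (Fin n))) : Set (Fin n → ℝ))
      = g (fun _ => (R : ℝ)) k '' (Sk K R k : Set (Fin n →₀ ℕ)) := by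
  have hkR : (0 : ℝ) < k := by exact_mod_cast hk
  have : NeZero k := ⟨hk.ne'⟩
  have hmem : ∀ x : Fin n → ℝ, x ∈ (k : ℝ)⁻¹ •
      (Submodule.span ℤ (Set.range ⇑(Pi.basisFun ℝ (Fin n))) : Set (Fin n → ℝ)) ↔
      ∀ i, (k : ℝ) * x i ∈ Set.range (algebraMap ℤ ℝ) := fun x =>
    BoxIntegral.unitPartition.mem_smul_span_iff (n := k) (v := x)
  ext x
  rw [Set.mem_inter_iff, hmem]
  constructor
  · rintro ⟨hxK, hx⟩
    choose z hz using hx
    have hz' : ∀ i, (z i : ℝ) = k * x i := fun i => hz i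
    have hnn : ∀ i, 0 ≤ z i + k * R := by
      intro i
      have h1 := (abs_le.mp (hR x hxK i)).1
      have h2 : (0 : ℝ) ≤ (z i : ℝ) + k * R := by
        rw [hz' i]
        nlinarith
      exact_mod_cast h2
    refine ⟨Finsupp.equivFunOnFinite.symm fun i => (z i + k * R).toNat, ?_, ?_⟩
    · rw [Finset.mem_coe, mem_Sk hR hk]
      convert hxK using 1
      funext i
      have h3 : (((z i + k * R).toNat : ℕ) : ℝ) = z i + k * R := by
        have := Int.toNat_of_nonneg (hnn i)
        exact_mod_cast congrArg (fun w : ℤ => (w : ℝ)) this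
      simp only [g, toR, Pi.sub_apply, Pi.smul_apply, smul_eq_mul,
        Finsupp.equivFunOnFinite_symm_apply_apply]
      rw [h3, hz' i]
      field_simp
      ring
    · funext i
      have h3 : (((z i + k * R).toNat : ℕ) : ℝ) = z i + k * R := by
        have := Int.toNat_of_nonneg (hnn i)
        exact_mod_cast congrArg (fun w : ℤ => (w : ℝ)) this
      simp only [g, toR, Pi.sub_apply, Pi.smul_apply, smul_eq_mul,
        Finsupp.equivFunOnFinite_symm_apply_apply]
      rw [h3, hz' i]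
      field_simp
      ring
  · rintro ⟨m, hm, rfl⟩
    refine ⟨(mem_Sk hR hk).mp hm, fun i => ⟨(m i : ℤ) - k * R, ?_⟩⟩
    simp only [g, toR, Pi.sub_apply, Pi.smul_apply, smul_eq_mul, eq_intCast]
    push_cast
    field_simp

/-- Counting lattice points. -/
theorem tendsto_card {K : Set (Fin n → ℝ)} (hKc : IsCompact K) (hK : Convex ℝ K) {R : ℕ}
    (hR : ∀ x ∈ K, ∀ i, |x i| ≤ R) :
    Tendsto (fun k : ℕ => ((Sk K R k).card : ℝ) / k ^ n) atTop (𝓝 (volume.real K)) := by
  have h := tendsto_card_div_pow_atTop_volume K hKc.isBounded hKc.measurableSet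
    (hK.addHaar_frontier volume)
  rw [Fintype.card_fin] at h
  refine h.congr' ?_
  filter_upwards [eventually_gt_atTop 0] with k hk
  rw [image_Sk hR hk, Nat.card_image_of_injective (g_injective _ k hk)]
  simp

theorem tendsto_sum {K : Set (Fin n → ℝ)} (hKc : IsCompact K) (hK : Convex ℝ K) {R : ℕ}
    (hR : ∀ x ∈ K, ∀ i, |x i| ≤ R) (i : Fin n) :
    Tendsto (fun k : ℕ => (∑ m ∈ Sk K R k, g (fun _ => (R : ℝ)) k m i) / (k : ℝ) ^ n) atTop
      (𝓝 (∫ x in K, x i)) := by
  have h := tendsto_tsum_div_pow_atTop_integral K (fun x => x i) (continuous_apply i)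
    hKc.isBounded hKc.measurableSet (hK.addHaar_frontier volume)
  rw [Fintype.card_fin] at h
  refine h.congr' ?_
  filter_upwards [eventually_gt_atTop 0] with k hk
  rw [image_Sk hR hk]
  congr 1
  rw [tsum_image (fun x : Fin n → ℝ => x i) (g_injective _ k hk).injOn]
  exact Finset.tsum_subtype' (Sk K R k) fun m => g (fun _ => (R : ℝ)) k m i

theorem main_bound (K : Set (Fin n → ℝ)) (hKc : IsCompact K) (hK : Convex ℝ K)
    (h0 : 0 ∈ interior K) (hz : ∀ i, ∫ x in K, x i = 0)
    (u0 : (Fin n → ℝ) →ₗ[ℝ] ℝ)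
    (hL : ∀ l : Fin n → ℤ, (fun i => (l i : ℝ)) ∈ interior K →
      l = 0 ∨ 0 < u0 (fun i => (l i : ℝ))) :
    volume.real K ≤ (n + 1 : ℝ) ^ n / n.factorial := by
  have hK0 : (0 : Fin n → ℝ) ∈ K := interior_subset h0
  have hVpos : 0 < volume.real K := by
    rw [measureReal_def]
    refine ENNReal.toReal_pos ?_ hKc.measure_ne_top
    exact ((isOpen_interior.measure_pos volume ⟨0, h0⟩).trans_le
      (measure_mono interior_subset)).ne'
  obtain ⟨R, hR⟩ : ∃ R : ℕ, ∀ x ∈ K, ∀ i, |x i| ≤ R := by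
    obtain ⟨C, hC⟩ := hKc.isBounded.exists_norm_le
    obtain ⟨R, hR⟩ := exists_nat_ge C
    exact ⟨R, fun x hx i => (norm_le_pi_norm x i).trans ((hC x hx).trans hR)⟩
  have hcard := tendsto_card hKc hK hR
  set v : Fin n → ℝ := fun _ => (R : ℝ) with hv
  -- the average tends to zero
  have hβlim : Tendsto (fun k : ℕ => ((Sk K R k).card : ℝ)⁻¹ •
      ∑ m ∈ Sk K R k, g v k m) atTop (𝓝 0) := by
    rw [tendsto_pi_nhds]
    intro i
    have h1 := (tendsto_sum hKc hK hR i).div hcard hVpos.ne'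
    rw [hz i, zero_div] at h1
    refine h1.congr' ?_
    filter_upwards [eventually_gt_atTop 0] with k hk
    have hkR : (0 : ℝ) < k := by exact_mod_cast hk
    simp only [Pi.div_apply, Pi.smul_apply, smul_eq_mul, Finset.sum_apply]
    rw [div_div_div_cancel_right₀ (by positivity)]
    rw [div_eq_inv_mul]
  obtain ⟨r, hr, hball⟩ := Metric.isOpen_iff.mp isOpen_interior 0 h0
  -- the inequality for each `δ > 0`
  have hδ : ∀ δ : ℝ, 0 < δ →
      volume.real K * (1 - n * δ) ≤ (n + 1 : ℝ) ^ (n + 1) / (n + 1).factorial := by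
    intro δ hδ
    have hev : ∀ᶠ k : ℕ in atTop, ‖((Sk K R k).card : ℝ)⁻¹ • ∑ m ∈ Sk K R k, g v k m‖ < δ * r := by
      have := (tendsto_zero_iff_norm_tendsto_zero.mp hβlim)
      exact this.eventually (gt_mem_nhds (by positivity))
    have hne : ∀ᶠ k : ℕ in atTop, 0 < ((Sk K R k).card : ℝ) / k ^ n :=
      hcard.eventually (lt_mem_nhds hVpos)
    have hineq : ∀ᶠ k : ℕ in atTop, ((Sk K R k).card : ℝ) / k ^ n * (1 - n * δ) ≤
        (((n : ℝ) + (n + 1) * k) / k) ^ (n + 1) / (n + 1).factorial := by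
      filter_upwards [hev, hne, eventually_gt_atTop 0] with k hk1 hk2 hk
      have hkR : (0 : ℝ) < k := by exact_mod_cast hk
      have hSne : (Sk K R k).Nonempty := by
        rw [Finset.nonempty_iff_ne_empty]
        intro h
        rw [h] at hk2
        simp at hk2
      have hN : (0 : ℝ) < (Sk K R k).card := by exact_mod_cast hSne.card_pos
      have hβ : ∀ x ∈ K, x - ((Sk K R k).card : ℝ)⁻¹ •
          ∑ m ∈ Sk K R k, ((k : ℝ)⁻¹ • toR m - v) ∈ (1 + δ) • K := by
        intro x hx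
        rw [hK.add_smul zero_le_one hδ.le, one_smul, sub_eq_add_neg]
        refine Set.add_mem_add hx ?_
        rw [Set.mem_smul_set]
        refine ⟨δ⁻¹ • -(((Sk K R k).card : ℝ)⁻¹ • ∑ m ∈ Sk K R k, g v k m), ?_, ?_⟩
        · apply interior_subset
          apply hball
          rw [mem_ball_zero_iff, norm_smul, norm_neg, norm_inv, Real.norm_of_nonneg hδ.le]
          rw [inv_mul_lt_iff₀ hδ]
          exact hk1
        · rw [smul_inv_smul₀ hδ.ne']
          rfl
      have hS : ∀ m ∈ Sk K R k, toR m ∈ (k : ℝ) • ((fun x => x + v) '' K) := by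
        intro m hm
        have hmK := (mem_Sk hR hk).mp hm
        refine ⟨_, ⟨_, hmK, rfl⟩, ?_⟩
        simp only [g, hv]
        funext i
        simp only [Pi.smul_apply, Pi.add_apply, Pi.sub_apply, smul_eq_mul]
        field_simp
        ring
      have h2 := step2 K hK h0 u0 hL v k hk (Sk K R k) hSne hS δ hδ.le hβ ((n + 1) * k)
      have h3 := h2.trans (add_le_add_left (sum_cnt n ((n + 1) * k)) _)
      have h4 : ((Sk K R k).card : ℝ) * k * (1 - n * δ) ≤
          ((n : ℝ) + (n + 1) * k) ^ (n + 1) / (n + 1).factorial := by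
        push_cast at h3
        nlinarith [h3]
      rw [div_pow, div_right_comm, le_div_iff₀ (by positivity)]
      calc ((Sk K R k).card : ℝ) / k ^ n * (1 - n * δ) * k ^ (n + 1)
          = ((Sk K R k).card : ℝ) * k * (1 - n * δ) := by
            field_simp
            ring
        _ ≤ _ := h4
    have hl1 : Tendsto (fun k : ℕ => ((Sk K R k).card : ℝ) / k ^ n * (1 - n * δ)) atTop
        (𝓝 (volume.real K * (1 - n * δ))) := hcard.mul_const _
    have hl2 : Tendsto (fun k : ℕ => (((n : ℝ) + (n + 1) * k) / k) ^ (n + 1) /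
        (n + 1).factorial) atTop (𝓝 ((n + 1 : ℝ) ^ (n + 1) / (n + 1).factorial)) := by
      refine Tendsto.div_const (Tendsto.pow ?_ _) _
      have h5 : Tendsto (fun k : ℕ => (n : ℝ) / k + (n + 1)) atTop (𝓝 (0 + (n + 1))) :=
        (tendsto_const_div_atTop_nhds_zero_nat (n : ℝ)).add_const _
      rw [zero_add] at h5
      refine h5.congr' ?_
      filter_upwards [eventually_gt_atTop 0] with k hk
      have hkR : (k : ℝ) ≠ 0 := by exact_mod_cast hk.ne'
      field_simp
    exact le_of_tendsto_of_tendsto hl1 hl2 hineq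
  have hfin : volume.real K ≤ (n + 1 : ℝ) ^ (n + 1) / (n + 1).factorial := by
    refine le_of_forall_pos_le_add fun ε hε => ?_
    have hnV : 0 < n * volume.real K + 1 := by positivity
    have h6 := hδ (ε / (n * volume.real K + 1)) (by positivity)
    have h7 : n * volume.real K * (ε / (n * volume.real K + 1)) ≤ ε := by
      rw [← mul_div_assoc, div_le_iff₀ hnV]
      nlinarith
    nlinarith [h6, h7]
  refine hfin.trans (le_of_eq ?_)
  rw [Nat.factorial_succ, pow_succ]
  push_cast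
  have : ((n : ℝ) + 1) ≠ 0 := by positivity
  field_simp

end H94R2.Eh
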